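import Pool.Agent.P8H51.EA.Stm4

set_option autoImplicit false

/-! # Package JBAD of project EF (helper75) -/

namespace Pool.Agent.P8H75.EF

open NumberField IsDedekindDomain Pool.Agent.P8H51.EA Pool.Agent.TH876.FH

section

variable {K : Type} [Field K] [NumberField K]

/-- the invariant is integral at a prime of good reduction -/
theorem good_j (v : HeightOneSpectrum (𝓞 K)) (E : WeierstrassCurve K) (h : GoodAt v E) :
    v.valuation K (E.c₄ ^ 3 / E.Δ) ≤ 1 := by
  obtain ⟨C, h1, h2, h3, h4, h6, hd⟩ := h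
  have e : E.c₄ ^ 3 / E.Δ = (C • E).c₄ ^ 3 / (C • E).Δ := by
    rw [WeierstrassCurve.variableChange_c₄, WeierstrassCurve.variableChange_Δ, mul_pow, ← pow_mul]
    rw [mul_div_mul_left _ _ (pow_ne_zero _ (Units.ne_zero _))]
  rw [e, map_div₀, hd, div_one, map_pow]
  set O := (v.valuation K).integer
  have m1 : (C • E).a₁ ∈ O := h1
  have m2 : (C • E).a₂ ∈ O := h2
  have m3 : (C • E).a₃ ∈ O := h3
  have m4 : (C • E).a₄ ∈ O := h4
  have m5 : (C • E).c₄ ∈ O := by
    unfold WeierstrassCurve.c₄ WeierstrassCurve.b₂ WeierstrassCurve.b₄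
    have n4 : (4 : K) ∈ O := by exact_mod_cast natCast_mem O 4
    have n2 : (2 : K) ∈ O := by exact_mod_cast natCast_mem O 2
    have n24 : (24 : K) ∈ O := by exact_mod_cast natCast_mem O 24
    exact O.sub_mem (O.pow_mem (O.add_mem (O.pow_mem m1 2) (O.mul_mem n4 m2)) 2)
      (O.mul_mem n24 (O.add_mem (O.mul_mem n2 m4) (O.mul_mem m1 m3)))
  exact pow_le_one' (show v.valuation K (C • E).c₄ ≤ 1 from m5) 3

/-- the set of bad primes is finite (proof of `Pool.Agent.TH876.TT.bad`) -/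
theorem bad_fin (E : WeierstrassCurve K) (hE : E.Δ ≠ 0) :
    {v : HeightOneSpectrum (𝓞 K) | ¬ GoodAt v E}.Finite := by
  have hf := fun k : K => HeightOneSpectrum.Support.finite (𝓞 K) k
  refine ((hf E.a₁).union ((hf E.a₂).union ((hf E.a₃).union ((hf E.a₄).union
    ((hf E.a₆).union ((hf E.Δ).union (hf E.Δ⁻¹))))))).subset ?_
  intro v hv
  by_contra hc
  simp only [HeightOneSpectrum.Support, Set.mem_union, Set.mem_ofPred_eq, not_or, not_lt] at hc
  obtain ⟨c1, c2, c3, c4, c6, c7, c8⟩ := hc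
  apply hv
  refine ⟨1, ?_⟩
  rw [one_smul]
  refine ⟨c1, c2, c3, c4, c6, le_antisymm c7 ?_⟩
  have h0 : v.valuation K E.Δ ≠ 0 := (Valuation.ne_zero_iff _).2 hE
  rw [map_inv₀] at c8
  exact (inv_le_one₀ (zero_lt_iff.2 h0)).1 c8

/-- the valuation of an integer outside the prime -/
theorem val_one {v : HeightOneSpectrum (𝓞 K)} {x : 𝓞 K} (h : x ∉ v.asIdeal) :
    v.valuation K (x : K) = 1 := by
  refine le_antisymm (v.valuation_le_one x) ?_
  by_contra hc
  rw [not_le] at hc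
  exact h ((v.valuation_lt_one_iff_mem x).1 hc)

/-- the primes of `X` outside `6 q` are bad -/
theorem is_bad {E : WeierstrassCurve K} {a b X : 𝓞 K} {q : ℕ}
    (hD : 4 * a ^ 3 + 27 * b ^ 2 ≠ 0)
    (hj : E.c₄ ^ 3 / E.Δ = 6912 * (a : K) ^ 3 / (4 * (a : K) ^ 3 + 27 * (b : K) ^ 2))
    (hq : (q : 𝓞 K) ∈ Ideal.span {a, b}) (hX : X ∣ 4 * a ^ 3 + 27 * b ^ 2)
    (v : HeightOneSpectrum (𝓞 K)) (hv : X ∈ v.asIdeal) (h6 : ((6 * q : ℕ) : 𝓞 K) ∉ v.asIdeal) :
    ¬ GoodAt v E := by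
  intro hg
  have hp := v.isPrime
  have hDv : 4 * a ^ 3 + 27 * b ^ 2 ∈ v.asIdeal := Ideal.mem_of_dvd _ hX hv
  have h6v : (6 : 𝓞 K) ∉ v.asIdeal := by
    intro h
    apply h6
    push_cast
    exact Ideal.mul_mem_right _ _ h
  have hqv : (q : 𝓞 K) ∉ v.asIdeal := by
    intro h
    apply h6
    push_cast
    exact Ideal.mul_mem_left _ _ h
  have h2v : (2 : 𝓞 K) ∉ v.asIdeal := by
    intro h
    apply h6v
    have : (6 : 𝓞 K) = 3 * 2 := by norm_num
    rw [this]
    exact Ideal.mul_mem_left _ _ h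
  have h3v : (3 : 𝓞 K) ∉ v.asIdeal := by
    intro h
    apply h6v
    have : (6 : 𝓞 K) = 2 * 3 := by norm_num
    rw [this]
    exact Ideal.mul_mem_left _ _ h
  have hav : a ∉ v.asIdeal := by
    intro ha
    have h1 : 27 * b ^ 2 ∈ v.asIdeal := by
      have : 27 * b ^ 2 = (4 * a ^ 3 + 27 * b ^ 2) - 4 * a ^ 2 * a := by ring
      rw [this]
      exact Ideal.sub_mem _ hDv (Ideal.mul_mem_left _ _ ha)
    have h2 : b ^ 2 ∈ v.asIdeal := by
      refine (hp.mem_or_mem h1).resolve_left fun h => h3v ?_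
      have : (27 : 𝓞 K) = 3 ^ 3 := by norm_num
      rw [this] at h
      exact hp.mem_of_pow_mem _ h
    have h3 := hp.mem_of_pow_mem _ h2
    have h4 : Ideal.span {a, b} ≤ v.asIdeal := by
      rw [Ideal.span_le]
      intro x hx
      rcases hx with rfl | hx
      · exact ha
      · rw [Set.mem_singleton_iff] at hx
        rw [hx]
        exact h3
    exact hqv (h4 hq)
  have hN : (6912 * a ^ 3 : 𝓞 K) ∉ v.asIdeal := by
    intro h
    rcases hp.mem_or_mem h with h | h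
    · have : (6912 : 𝓞 K) = 2 ^ 8 * 3 ^ 3 := by norm_num
      rw [this] at h
      rcases hp.mem_or_mem h with h | h
      · exact h2v (hp.mem_of_pow_mem _ h)
      · exact h3v (hp.mem_of_pow_mem _ h)
    · exact hav (hp.mem_of_pow_mem _ h)
  have h1 := good_j v E hg
  rw [hj] at h1
  have e1 : 6912 * (a : K) ^ 3 = ((6912 * a ^ 3 : 𝓞 K) : K) := by
    push_cast
    rfl
  have e2 : 4 * (a : K) ^ 3 + 27 * (b : K) ^ 2 = ((4 * a ^ 3 + 27 * b ^ 2 : 𝓞 K) : K) := by
    push_cast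
    rfl
  rw [e1, e2, map_div₀, val_one hN] at h1
  have h2 : v.valuation K ((4 * a ^ 3 + 27 * b ^ 2 : 𝓞 K) : K) < 1 :=
    (v.valuation_lt_one_iff_mem _).2 hDv
  have h3 : v.valuation K ((4 * a ^ 3 + 27 * b ^ 2 : 𝓞 K) : K) ≠ 0 := by
    rw [Valuation.ne_zero_iff]
    exact_mod_cast hD
  rw [one_div, inv_le_one₀ (zero_lt_iff.2 h3)] at h1
  exact absurd h2 (not_lt.2 h1)

/-- JBAD -/
theorem jbad : S_JBAD := by
  classical
  intro K _ _ E a b X q hE hD hj hq0 hq hX0 hsq hX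
  set I := Ideal.span {X} with hI
  have hI0 : I ≠ 0 := by
    rw [hI, Ne, Ideal.zero_eq_bot, Ideal.span_singleton_eq_bot]
    exact hX0
  have hnd := (UniqueFactorizationMonoid.squarefree_iff_nodup_normalizedFactors hI0).1 hsq
  set F := (UniqueFactorizationMonoid.normalizedFactors I).toFinset with hF
  have hprod : ∏ p ∈ F, p = I := by
    have h1 := Ideal.prod_normalizedFactors_eq_self (I := I) (by simpa using hI0)
    change (Multiset.map (fun p => p) F.val).prod = I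
    rw [Multiset.map_id', hF, Multiset.toFinset_val, hnd.dedup]
    exact h1
  have hpr : ∀ p ∈ F, Prime p ∧ X ∈ p := by
    intro p hp
    rw [hF, Multiset.mem_toFinset] at hp
    refine ⟨UniqueFactorizationMonoid.prime_of_normalized_factor p hp, ?_⟩
    have h1 := UniqueFactorizationMonoid.dvd_of_mem_normalizedFactors hp
    exact Ideal.dvd_iff_le.1 h1 (Ideal.mem_span_singleton_self X)
  have hnorm : |(Algebra.norm ℤ X : ℝ)| = ∏ p ∈ F, (Ideal.absNorm p : ℝ) := by
    have h1 : Ideal.absNorm I = (Algebra.norm ℤ X).natAbs := by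
      rw [hI, Ideal.absNorm_span_singleton]
    have h2 : |(Algebra.norm ℤ X : ℝ)| = ((Algebra.norm ℤ X).natAbs : ℝ) := by
      rw [Nat.cast_natAbs]
      push_cast
      rfl
    rw [h2, ← h1, ← hprod, map_prod]
    push_cast
    rfl
  set m : 𝓞 K := ((6 * q : ℕ) : 𝓞 K) with hm
  have hm0 : m ≠ 0 := by
    rw [hm]
    exact_mod_cast (by omega : 6 * q ≠ 0)
  rw [hnorm, ← Finset.prod_filter_mul_prod_filter_not F (fun p => m ∈ p), mul_comm]
  have hone : ∀ p : Ideal (𝓞 K), p ≠ ⊥ → (1 : ℝ) ≤ (Ideal.absNorm p : ℝ) := by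
    intro p hp
    have : 0 < Ideal.absNorm p := Nat.pos_of_ne_zero (by rwa [Ne, Ideal.absNorm_eq_zero_iff])
    exact_mod_cast this
  refine mul_le_mul ?_ ?_ (Finset.prod_nonneg fun p _ => Nat.cast_nonneg _) ?_
  · have hB := bad_fin E hE
    unfold badNorm
    rw [finprod_mem_eq_finite_toFinset_prod _ hB]
    have hinj : ∏ v ∈ hB.toFinset, (Ideal.absNorm v.asIdeal : ℝ) =
        ∏ p ∈ hB.toFinset.image (fun v => v.asIdeal), (Ideal.absNorm p : ℝ) := by
      rw [Finset.prod_image]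
      intro v _ w _ h
      exact HeightOneSpectrum.ext h
    rw [hinj]
    have hsub : F.filter (fun p => ¬ m ∈ p) ⊆ hB.toFinset.image (fun v => v.asIdeal) := by
      intro p hp
      rw [Finset.mem_filter] at hp
      obtain ⟨hpF, hpm⟩ := hp
      obtain ⟨h1, h2⟩ := hpr p hpF
      have hpr' : p.IsPrime := Ideal.isPrime_of_prime h1
      have hp0 : p ≠ ⊥ := h1.ne_zero
      rw [Finset.mem_image]
      refine ⟨⟨p, hpr', hp0⟩, ?_, rfl⟩
      rw [Set.Finite.mem_toFinset, Set.mem_ofPred_eq]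
      exact is_bad hD hj hq hX ⟨p, hpr', hp0⟩ h2 hpm
    have hdvd := Finset.prod_dvd_prod_of_subset _ _ (fun p : Ideal (𝓞 K) => Ideal.absNorm p) hsub
    have hpos : 0 < ∏ p ∈ hB.toFinset.image (fun v => v.asIdeal), Ideal.absNorm p := by
      refine Finset.prod_pos fun p hp => ?_
      rw [Finset.mem_image] at hp
      obtain ⟨v, -, rfl⟩ := hp
      exact Nat.pos_of_ne_zero (by rw [Ne, Ideal.absNorm_eq_zero_iff]; exact v.ne_bot)
    exact_mod_cast Nat.le_of_dvd hpos hdvd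
  · have h1 : ∏ p ∈ F.filter (fun p => m ∈ p), p ∣ Ideal.span {m} := by
      refine Finset.prod_primes_dvd _ (fun p hp => ?_) (fun p hp => ?_)
      · exact (hpr p (Finset.mem_filter.1 hp).1).1
      · rw [Ideal.dvd_span_singleton]
        exact (Finset.mem_filter.1 hp).2
    have h2 : ∏ p ∈ F.filter (fun p => m ∈ p), Ideal.absNorm p ∣ Ideal.absNorm (Ideal.span {m}) := by
      rw [← map_prod]
      exact map_dvd Ideal.absNorm h1
    have h3 : Ideal.absNorm (Ideal.span {m}) = (6 * q) ^ Module.finrank ℚ K := by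
      rw [Ideal.absNorm_span_singleton, hm]
      have : (((6 * q : ℕ) : 𝓞 K)) = algebraMap ℤ (𝓞 K) ((6 * q : ℕ) : ℤ) := by simp
      rw [this, Algebra.norm_algebraMap, RingOfIntegers.rank, Int.natAbs_pow, Int.natAbs_natCast]
    rw [h3] at h2
    have h4 := Nat.le_of_dvd (by positivity) h2
    exact_mod_cast h4
  · unfold badNorm
    exact finprod_nonneg fun v => finprod_nonneg fun _ => Nat.cast_nonneg _

end

end Pool.Agent.P8H75.EF
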